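import Mathlib
import Pool.Agent.H10.Chordal

set_option autoImplicit false

namespace Pool.Agent.Results.MP_77abd0_co.RealRoots

open Finset Polynomial SimpleGraph

/-- Every cycle of length at least four has a chord. -/
def Chordal {V : Type} (G : SimpleGraph V) : Prop :=
  ∀ m : ℕ, 4 ≤ m → ∀ f : Fin m → V, Function.Injective f →
    (∀ i j, (cycleGraph m).Adj i j → G.Adj (f i) (f j)) →
    ∃ i j, i ≠ j ∧ ¬ (cycleGraph m).Adj i j ∧ G.Adj (f i) (f j)

/-- At least `l + 1` vertices, and connected after deleting any fewer than `l` vertices. -/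
def LConnected {V : Type} [Fintype V] (G : SimpleGraph V) (l : ℕ) : Prop :=
  l + 1 ≤ Fintype.card V ∧ ∀ S : Finset V, S.card < l → (G.induce ((S : Set V)ᶜ)).Connected

open Classical in
/-- The clique polynomial (there is one clique with `0` vertices). -/
noncomputable def cliquePoly {V : Type} [Fintype V] (G : SimpleGraph V) : ℂ[X] :=
  ∑ k ∈ range (G.cliqueNum + 1), C ((G.cliqueFinset k).card : ℂ) * X ^ k

open Classical in
noncomputable def cp {V : Type} (G : SimpleGraph V) (U : Finset V) : ℂ[X] :=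
  ∑ S ∈ U.powerset.filter (fun S : Finset V => G.IsClique (S : Set V)), X ^ S.card

def Con {V : Type} (G : SimpleGraph V) (l : ℕ) (U : Finset V) : Prop :=
  ∀ S : Finset V, S.card < l → ∀ a ∈ U, ∀ b ∈ U, a ∉ S → b ∉ S →
    Relation.ReflTransGen (fun x y => G.Adj x y ∧ y ∈ U ∧ y ∉ S) a b

theorem cp_clique {V : Type} (G : SimpleGraph V) (U : Finset V) (h : G.IsClique (U : Set V)) :
    cp G U = (1 + X) ^ U.card := by
  classical
  unfold cp
  rw [filter_true_of_mem (fun S hS => h.subset (by exact_mod_cast mem_powerset.1 hS)),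
    ← prod_const (1 + X : ℂ[X]), prod_one_add]
  simp

open Classical in
theorem cp_insert {V : Type} (G : SimpleGraph V) (U : Finset V) (v : V) (hv : v ∉ U) :
    cp G (insert v U) = cp G U + X * cp G (U.filter (G.Adj v)) := by
  unfold cp
  rw [sum_filter, sum_powerset_insert hv, ← sum_filter, ← sum_filter, mul_sum]
  congr 1
  have : U.powerset.filter (fun S => G.IsClique ((insert v S : Finset V) : Set V)) =
      (U.filter (G.Adj v)).powerset.filter (fun S : Finset V => G.IsClique (S : Set V)) := by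
    ext S
    simp only [mem_filter, mem_powerset, coe_insert, isClique_insert, mem_coe]
    constructor
    · rintro ⟨h1, h2, h3⟩
      exact ⟨fun a ha => mem_filter.2 ⟨h1 ha, h3 a ha (fun e => hv (e ▸ h1 ha))⟩, h2⟩
    · rintro ⟨h1, h2⟩
      exact ⟨fun a ha => (mem_filter.1 (h1 ha)).1, h2, fun a ha _ => (mem_filter.1 (h1 ha)).2⟩
  rw [this]
  refine sum_congr rfl (fun S hS => ?_)
  have : v ∉ S := fun h => hv (mem_filter.1 (mem_powerset.1 (mem_filter.1 hS).1 h)).1
  rw [card_insert_of_notMem this, pow_succ']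

open Classical in
theorem deg_ge {V : Type} (G : SimpleGraph V) (l : ℕ) (U : Finset V) (v : V) (hv : v ∈ U)
    (hc : Con G l U) (hU : l + 1 ≤ U.card) : l ≤ ((U.erase v).filter (G.Adj v)).card := by
  by_contra h
  set N := (U.erase v).filter (G.Adj v) with hN
  have h1 : N.card < (U.erase v).card := by rw [card_erase_of_mem hv]; omega
  obtain ⟨b, hb, hbN⟩ := exists_mem_notMem_of_card_lt_card h1
  have hvN : v ∉ N := fun h => (mem_filter.1 h).2.ne rfl
  have := hc N (by omega) v hv b (mem_of_mem_erase hb) hvN hbN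
  rcases this.cases_head with e | ⟨c, ⟨h2, h3, h4⟩, _⟩
  · exact (mem_erase.1 hb).1 e.symm
  · exact h4 (mem_filter.2 ⟨mem_erase.2 ⟨h2.ne.symm, h3⟩, h2⟩)

open Classical in
theorem con_erase {V : Type} (G : SimpleGraph V) (l : ℕ) (U : Finset V) (v : V)
    (hs : Pool.Agent.H10.Chordal.Simp G U v) (hc : Con G l U) : Con G l (U.erase v) := by
  intro S hS a ha b hb haS hbS
  have h := hc S hS a (mem_of_mem_erase ha) b (mem_of_mem_erase hb) haS hbS
  have key : ∀ c, Relation.ReflTransGen (fun x y => G.Adj x y ∧ y ∈ U ∧ y ∉ S) a c →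
      (c ≠ v → c ∈ U ∧ Relation.ReflTransGen (fun x y => G.Adj x y ∧ y ∈ U.erase v ∧ y ∉ S) a c) ∧
      (c = v → ∃ d ∈ U, G.Adj v d ∧
        Relation.ReflTransGen (fun x y => G.Adj x y ∧ y ∈ U.erase v ∧ y ∉ S) a d) := by
    intro c hc
    induction hc with
    | refl => exact ⟨fun _ => ⟨mem_of_mem_erase ha, .refl⟩, fun e => absurd e (mem_erase.1 ha).1⟩
    | @tail c d _ hcd ih =>
      by_cases hcv : c = v
      · obtain ⟨x, hx, hvx, hax⟩ := ih.2 hcv
        subst hcv
        refine ⟨fun hd => ⟨hcd.2.1, ?_⟩, fun e => absurd e hcd.1.ne.symm⟩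
        by_cases hxd : x = d
        · exact hxd ▸ hax
        · exact hax.tail ⟨hs x hx d hcd.2.1 hvx hcd.1 hxd, mem_erase.2 ⟨hd, hcd.2.1⟩, hcd.2.2⟩
      · obtain ⟨hcU, hac⟩ := ih.1 hcv
        refine ⟨fun hd => ⟨hcd.2.1, hac.tail ⟨hcd.1, mem_erase.2 ⟨hd, hcd.2.1⟩, hcd.2.2⟩⟩, ?_⟩
        rintro rfl
        exact ⟨c, hcU, hcd.1.symm, hac⟩
  exact ((key b h).1 (mem_erase.1 hb).1).2

theorem main {V : Type} (G : SimpleGraph V) (l : ℕ)
    (hG : ∀ n, 4 ≤ n → IsEmpty (cycleGraph n ↪g G)) (hf : G.CliqueFree (l + 3)) :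
    ∀ (k : ℕ) (U : Finset V), U.card = l + 1 + k → Con G l U →
      ∃ a b : ℕ, cp G U = (1 + X) ^ l * (1 + C ((a : ℂ) + b + 1) * X + C (b : ℂ) * X ^ 2) := by
  classical
  intro k
  induction k with
  | zero =>
    intro U hU hc
    refine ⟨0, 0, ?_⟩
    rw [cp_clique, hU]
    · simp [pow_succ]
    · intro x hx y hy hxy
      have h1 := deg_ge G l U x hx hc (by omega)
      have h2 : (U.erase x).filter (G.Adj x) = U.erase x :=
        eq_of_subset_of_card_le (filter_subset _ _) (by rw [card_erase_of_mem hx]; omega)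
      have : y ∈ (U.erase x).filter (G.Adj x) := by
        rw [h2]; exact mem_erase.2 ⟨hxy.symm, hy⟩
      exact (mem_filter.1 this).2
  | succ k ih =>
    intro U hU hc
    obtain ⟨v, hv, hs⟩ := Pool.Agent.H10.Chordal.exists_simp G hG U (card_pos.1 (by omega))
    obtain ⟨a, b, h⟩ := ih (U.erase v) (by rw [card_erase_of_mem hv]; omega) (con_erase G l U v hs hc)
    have h1 := deg_ge G l U v hv hc (by omega)
    set N := (U.erase v).filter (G.Adj v) with hN
    have hcl : G.IsClique (N : Set V) := by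
      intro x hx y hy hxy
      obtain ⟨hx1, hx2⟩ := mem_filter.1 hx
      obtain ⟨hy1, hy2⟩ := mem_filter.1 hy
      exact hs x (mem_of_mem_erase hx1) y (mem_of_mem_erase hy1) hx2 hy2 hxy
    have hvN : v ∉ N := fun h => (mem_filter.1 h).2.ne rfl
    have h2 : N.card ≤ l + 1 := by
      by_contra h3
      refine (hf.mono (show l + 3 ≤ N.card + 1 by omega)) (insert v N) ⟨?_, card_insert_of_notMem hvN⟩
      rw [coe_insert, isClique_insert]
      exact ⟨hcl, fun x hx _ => (mem_filter.1 hx).2⟩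
    have h3 := cp_insert G (U.erase v) v (notMem_erase v U)
    rw [insert_erase hv, h, ← hN, cp_clique G N hcl] at h3
    obtain h4 | h4 : N.card = l ∨ N.card = l + 1 := by omega
    · refine ⟨a + 1, b, ?_⟩
      rw [h3, h4]
      simp only [Nat.cast_add, Nat.cast_one, map_add, map_one]
      ring
    · refine ⟨a, b + 1, ?_⟩
      rw [h3, h4]
      simp only [Nat.cast_add, Nat.cast_one, map_add, map_one]
      ring

theorem result {V : Type} [Fintype V] (G : SimpleGraph V) (l : ℕ) (hc : LConnected G l)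
    (hch : Chordal G) (hf : G.CliqueFree (l + 3)) :
    ∀ z : ℂ, (cliquePoly G).IsRoot z → z.im = 0 := by
  classical
  have hG : ∀ n, 4 ≤ n → IsEmpty (cycleGraph n ↪g G) := by
    intro n hn
    refine ⟨fun f => ?_⟩
    obtain ⟨i, j, _, h2, h3⟩ := hch n hn f f.injective (fun i j h => f.map_rel_iff.2 h)
    exact h2 (f.map_rel_iff.1 h3)
  have hcon : Con G l univ := by
    intro S hS a _ b _ ha hb
    have := (hc.2 S hS).preconnected ⟨a, ha⟩ ⟨b, hb⟩
    rw [reachable_iff_reflTransGen] at this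
    have key : ∀ w : ↥((S : Set V)ᶜ),
        Relation.ReflTransGen (G.induce ((S : Set V)ᶜ)).Adj ⟨a, ha⟩ w →
        Relation.ReflTransGen (fun x y => G.Adj x y ∧ y ∈ univ ∧ y ∉ S) a w.1 := by
      intro w hw
      induction hw with
      | refl => exact .refl
      | @tail c d _ hcd ih => exact ih.tail ⟨hcd, mem_univ _, d.2⟩
    exact key _ this
  obtain ⟨k, hk⟩ := Nat.exists_eq_add_of_le hc.1
  obtain ⟨a, b, h⟩ := main G l hG hf k univ hk hcon
  have hp : cliquePoly G = cp G univ := by
    unfold cliquePoly cp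
    rw [← sum_fiberwise_of_maps_to (t := range (G.cliqueNum + 1)) (g := fun S : Finset V => S.card)]
    · refine sum_congr rfl (fun i _ => ?_)
      rw [sum_congr rfl (g := fun _ => X ^ i) (fun S hS => by rw [(mem_filter.1 hS).2]),
        sum_const, filter_filter, nsmul_eq_mul, map_natCast]
      congr 3
      ext S
      simp [isNClique_iff]
    · intro S hS
      have := IsClique.card_le_cliqueNum (tc := (mem_filter.1 hS).2)
      exact mem_range.2 (by omega)
  intro z hz
  rw [hp, h, IsRoot] at hz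
  simp only [eval_mul, eval_pow, eval_add, eval_one, eval_X, eval_C, mul_eq_zero] at hz
  rcases hz with hz | hz
  · rw [eq_neg_of_add_eq_zero_right (pow_eq_zero_iff' .. |>.1 hz).1]
    simp
  · have h1 := congrArg Complex.re hz
    have h2 := congrArg Complex.im hz
    simp [pow_two] at h1 h2
    by_contra h0
    have ha : (0 : ℝ) ≤ a := Nat.cast_nonneg a
    have hb : (0 : ℝ) ≤ b := Nat.cast_nonneg b
    have h3 : (a : ℝ) + b + 1 + 2 * b * z.re = 0 := by
      have : z.im * ((a : ℝ) + b + 1 + 2 * b * z.re) = 0 := by linarith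
      exact (mul_eq_zero.1 this).resolve_left h0
    have h4 : 0 < z.im * z.im := mul_self_pos.2 h0
    have h5 : (0 : ℝ) < b := by
      rcases hb.eq_or_lt with e | e
      · rw [← e] at h3; linarith
      · exact e
    have h6 : 4 * b - ((a : ℝ) + b + 1) ^ 2 = 4 * b * b * (z.im * z.im) := by
      linear_combination 4 * b * h1 - ((a : ℝ) + b + 1 + 2 * b * z.re) * h3
    nlinarith [mul_pos (mul_pos h5 h5) h4, sq_nonneg ((b : ℝ) - 1), mul_nonneg ha hb]

end Pool.Agent.Results.MP_77abd0_co.RealRoots
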